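import Pool.Agent.H3.CcE

namespace Pool.Agent.Results.MP_cfec29_an.NegCC

/-- `T` is convex-cyclic: the convex hull of some orbit is norm dense. -/
def ConvexCyclic {E : Type} [NormedAddCommGroup E] [InnerProductSpace ℂ E] (T : E →L[ℂ] E) :
    Prop :=
  ∃ x : E, Dense (convexHull ℝ (Set.range fun n : ℕ => (T ^ n) x))

theorem result :
    ∃ (E : Type) (_ : NormedAddCommGroup E) (_ : InnerProductSpace ℂ E) (_ : CompleteSpace E)
      (T : E →L[ℂ] E), ConvexCyclic T ∧ ¬ ConvexCyclic (-T) := by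
  have h1 : ConvexCyclic Pool.Agent.H3.Cc.T := Pool.Agent.H3.Cc.T_cc
  have h2 : ¬ ConvexCyclic (-Pool.Agent.H3.Cc.T) := by
    rw [Pool.Agent.H3.Cc.T, neg_neg]
    exact Pool.Agent.H3.Cc.A_not_cc
  exact ⟨_, _, _, inferInstance, _, h1, h2⟩

end Pool.Agent.Results.MP_cfec29_an.NegCC
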